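import Mathlib

set_option autoImplicit false

namespace Pool.Agent.Results.MP_7f565b_co.EveryOrder

open Finset SimpleGraph

/-- closed neighbourhoods: `v ∈ N[s]` -/
def cl {V : Type} (G : SimpleGraph V) (s v : V) : Prop := s = v ∨ G.Adj s v

/-- every element of `S` has a private neighbour for the relation `r` -/
def Irr {V : Type} (r : V → V → Prop) (S : Finset V) : Prop :=
  ∀ s ∈ S, ∃ v, r s v ∧ ∀ t ∈ S, t ≠ s → ¬ r t v

/-- `S` dominates for the relation `r` -/
def Dom {V : Type} (r : V → V → Prop) (S : Finset V) : Prop := ∀ v, ∃ s ∈ S, r s v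

/-- lower irredundance number: the least size of a maximal irredundant set -/
noncomputable def ir {V : Type} (G : SimpleGraph V) : ℕ :=
  sInf {k | ∃ S : Finset V, Maximal (Irr (cl G)) S ∧ #S = k}

/-- domination number -/
noncomputable def gam {V : Type} (G : SimpleGraph V) : ℕ :=
  sInf {k | ∃ S : Finset V, Dom (cl G) S ∧ #S = k}

/-- edge-critical graphs for a parameter: adding any missing edge lowers it -/
def Crit (π : ∀ {V : Type}, SimpleGraph V → ℕ) {V : Type} (G : SimpleGraph V) : Prop :=
  ∀ u v, u ≠ v → ¬ G.Adj u v → π (G ⊔ edge u v) < π G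

section Basic

variable {V : Type}

instance [Fintype V] [DecidableEq V] (r : V → V → Bool) (S : Finset V) :
    Decidable (Irr (fun a b => r a b = true) S) := by
  unfold Irr; infer_instance

instance [Fintype V] [DecidableEq V] (r : V → V → Bool) (S : Finset V) :
    Decidable (Dom (fun a b => r a b = true) S) := by
  unfold Dom; infer_instance

lemma max_of [DecidableEq V] {r : V → V → Prop} {S : Finset V} (h : Irr r S)
    (h' : ∀ c ∉ S, ¬ Irr r (insert c S)) : Maximal (Irr r) S := by
  refine ⟨h, fun T hT hST c hc => by_contra fun h1 => h' c h1 fun s hs => ?_⟩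
  have h2 : insert c S ⊆ T := insert_subset hc hST
  obtain ⟨v, h3, h4⟩ := hT s (h2 hs)
  exact ⟨v, h3, fun t ht => h4 t (h2 ht)⟩

/-! ### Blow-ups: `V` is mapped onto `W`, the relation on `V` is pulled back -/

variable {W : Type} [DecidableEq W]

lemma irr_iff [DecidableEq V] (r : W → W → Prop) (β : V → W) (hβ : Function.Surjective β)
    (S : Finset V) : Irr (fun a b => r (β a) (β b)) S ↔ Set.InjOn β S ∧ Irr r (S.image β) := by
  constructor
  · intro h
    refine ⟨fun s hs t ht hst => ?_, fun s' hs' => ?_⟩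
    · by_contra hne
      obtain ⟨v, h1, h2⟩ := h s hs
      refine h2 t ht (Ne.symm hne) ?_
      show r (β t) (β v)
      exact hst ▸ h1
    · obtain ⟨s, hs, rfl⟩ := mem_image.1 hs'
      obtain ⟨v, h1, h2⟩ := h s hs
      refine ⟨β v, h1, fun t' ht' hne => ?_⟩
      obtain ⟨t, ht, rfl⟩ := mem_image.1 ht'
      exact h2 t ht (fun e => hne (e ▸ rfl))
  · rintro ⟨hinj, h⟩ s hs
    obtain ⟨p, h1, h2⟩ := h (β s) (mem_image_of_mem β hs)
    obtain ⟨q, rfl⟩ := hβ p
    exact ⟨q, h1, fun t ht hne => h2 (β t) (mem_image_of_mem β ht)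
      (fun e => hne (hinj ht hs e))⟩

lemma dom_iff [DecidableEq V] (r : W → W → Prop) (β : V → W) (hβ : Function.Surjective β)
    (S : Finset V) : Dom (fun a b => r (β a) (β b)) S ↔ Dom r (S.image β) := by
  constructor
  · intro h w
    obtain ⟨v, rfl⟩ := hβ w
    obtain ⟨s, hs, h1⟩ := h v
    exact ⟨β s, mem_image_of_mem β hs, h1⟩
  · intro h v
    obtain ⟨s', hs', h1⟩ := h (β v)
    obtain ⟨s, hs, rfl⟩ := mem_image.1 hs'
    exact ⟨s, hs, h1⟩

/-- an upper bound for `ir` of a blow-up -/
lemma ir_le [DecidableEq V] {G : SimpleGraph V} (r : W → W → Prop) (β : V → W)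
    (hβ : Function.Surjective β) (e : cl G = fun a b => r (β a) (β b)) (S : Finset W)
    (h : Irr r S) (h' : ∀ c ∉ S, ¬ Irr r (insert c S)) : ir G ≤ #S := by
  obtain ⟨ι, hι⟩ := hβ.hasRightInverse
  have him : (S.image ι).image β = S := by
    rw [image_image]
    have : β ∘ ι = id := funext hι
    rw [this, image_id]
  have hinj : Set.InjOn β (S.image ι : Finset V) := by
    intro a ha b hb hab
    obtain ⟨a', -, rfl⟩ := mem_image.1 (mem_coe.1 ha)
    obtain ⟨b', -, rfl⟩ := mem_image.1 (mem_coe.1 hb)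
    rw [hι, hι] at hab
    rw [hab]
  have hmem : #(S.image ι) ∈ {k | ∃ T : Finset V, Maximal (Irr (cl G)) T ∧ #T = k} → ir G ≤ #S :=
    fun h => (Nat.sInf_le h).trans card_image_le
  refine hmem ⟨S.image ι, ?_, rfl⟩
  rw [e]
  refine max_of ((irr_iff r β hβ _).2 ⟨hinj, by rw [him]; exact h⟩) fun c hc hirr => ?_
  obtain ⟨h1, h2⟩ := (irr_iff r β hβ _).1 hirr
  rw [image_insert, him] at h2
  refine h' (β c) (fun hcS => hc ?_) h2
  have h3 : β c ∈ (S.image ι).image β := him.symm ▸ hcS
  obtain ⟨d, hd, h4⟩ := mem_image.1 h3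
  have : d = c := h1 (mem_coe.2 (mem_insert_of_mem hd)) (mem_coe.2 (mem_insert_self _ _)) h4
  exact this ▸ hd

/-- a lower bound for `ir` of a blow-up -/
lemma three_le_ir [Finite V] [Nonempty V] [DecidableEq V] {G : SimpleGraph V} (r : W → W → Prop)
    (β : V → W) (hβ : Function.Surjective β) (e : cl G = fun a b => r (β a) (β b))
    (h : ∀ a b, Irr r {a, b} → ∃ c ∉ ({a, b} : Finset W), Irr r (insert c {a, b})) : 3 ≤ ir G := by
  obtain ⟨S, hS⟩ := (Set.toFinite {S | Irr (cl G) S}).exists_maximal ⟨∅, fun s hs => by simp at hs⟩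
  refine le_csInf ⟨_, S, hS, rfl⟩ ?_
  rintro _ ⟨T, hT, rfl⟩
  by_contra h1
  have h2 : T = ∅ ∨ ∃ a b, T = {a, b} := by
    have : #T = 0 ∨ #T = 1 ∨ #T = 2 := by omega
    rcases this with h | h | h
    · exact Or.inl (card_eq_zero.mp h)
    · obtain ⟨a, rfl⟩ := card_eq_one.mp h
      exact Or.inr ⟨a, a, by simp⟩
    · obtain ⟨a, b, -, rfl⟩ := card_eq_two.mp h
      exact Or.inr ⟨a, b, rfl⟩
  rcases h2 with rfl | ⟨a, b, rfl⟩
  · obtain ⟨a⟩ := ‹Nonempty V›
    have := hT.2 (y := {a}) (fun s hs => ⟨s, Or.inl rfl, by simp_all⟩) (empty_subset _)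
    simp at this
  · have hI := hT.1
    rw [e, irr_iff r β hβ, image_insert, image_singleton] at hI
    obtain ⟨c, h3, h4⟩ := h _ _ hI.2
    obtain ⟨q, rfl⟩ := hβ c
    have hq : q ∉ ({a, b} : Finset V) := by
      intro hq
      apply h3
      have := mem_image_of_mem β hq
      rwa [image_insert, image_singleton] at this
    have h5 : Irr (cl G) (insert q {a, b}) := by
      rw [e, irr_iff r β hβ]
      refine ⟨?_, by rw [image_insert, image_insert, image_singleton]; exact h4⟩
      rw [coe_insert]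
      refine (Set.injOn_insert (by exact_mod_cast hq)).2 ⟨hI.1, ?_⟩
      rintro ⟨d, hd, hdq⟩
      apply h3
      have := mem_image_of_mem β (mem_coe.1 hd)
      rw [hdq, image_insert, image_singleton] at this
      exact this
    exact hq (hT.2 h5 (subset_insert _ _) (mem_insert_self _ _))

lemma gam_le {G : SimpleGraph V} (S : Finset V) (h : Dom (cl G) S) : gam G ≤ #S :=
  Nat.sInf_le ⟨S, h, rfl⟩

lemma le_gam [Fintype V] {G : SimpleGraph V} (k : ℕ) (hk : k ≤ Fintype.card V)
    (h : ∀ S : Finset V, #S = k → ¬ Dom (cl G) S) : k + 1 ≤ gam G := by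
  refine le_csInf ⟨_, univ, fun v => ⟨v, mem_univ _, Or.inl rfl⟩, rfl⟩ ?_
  rintro _ ⟨T, hT, rfl⟩
  by_contra h1
  obtain ⟨S, h2, h3⟩ := exists_superset_card_eq (s := T) (by omega) hk
  exact h S h3 fun v => (hT v).imp fun s hs => ⟨h2 hs.1, hs.2⟩

/-- the blow-up: distinct vertices are adjacent if their images are equal or adjacent -/
def blow (r : W → W → Bool) (hs : ∀ a b, r a b = r b a) (β : V → W) : SimpleGraph V where
  Adj i j := i ≠ j ∧ r (β i) (β j) = true
  symm := ⟨fun _ _ h => ⟨h.1.symm, hs _ _ ▸ h.2⟩⟩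
  loopless := ⟨fun _ h => h.1 rfl⟩

omit [DecidableEq W] in
lemma cl_blow (r : W → W → Bool) (hs : ∀ a b, r a b = r b a) (hr : ∀ a, r a a = true) (β : V → W) :
    cl (blow r hs β) = fun i j => r (β i) (β j) = true := by
  ext i j
  constructor
  · rintro (rfl | h)
    · exact hr _
    · exact h.2
  · intro h
    by_cases e : i = j
    · exact Or.inl e
    · exact Or.inr ⟨e, h⟩

omit [DecidableEq W] in
lemma conn (r : W → W → Bool) (hs : ∀ a b, r a b = r b a) (hr : ∀ a, r a a = true) (β : V → W)
    (hβ : Function.Surjective β) (c : W)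
    (h : ∀ x, ∃ z₁ z₂ z₃, r c z₁ = true ∧ r z₁ z₂ = true ∧ r z₂ z₃ = true ∧ r z₃ x = true) :
    (blow r hs β).Connected := by
  obtain ⟨c', hc⟩ := hβ c
  have hre : ∀ i j, r (β i) (β j) = true → (blow r hs β).Reachable i j := by
    intro i j h
    have : cl (blow r hs β) i j := by
      rw [cl_blow r hs hr β]
      exact h
    rcases this with rfl | h
    · exact Reachable.refl _
    · exact h.reachable
  have hall : ∀ w, (blow r hs β).Reachable c' w := by
    intro w
    obtain ⟨z₁, z₂, z₃, h1, h2, h3, h4⟩ := h (β w)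
    obtain ⟨y₁, rfl⟩ := hβ z₁
    obtain ⟨y₂, rfl⟩ := hβ z₂
    obtain ⟨y₃, rfl⟩ := hβ z₃
    rw [← hc] at h1
    exact (((hre _ _ h1).trans (hre _ _ h2)).trans (hre _ _ h3)).trans (hre _ _ h4)
  have : Nonempty V := ⟨c'⟩
  exact ⟨fun a b => (hall a).symm.trans (hall b)⟩

lemma cl_edge (G : SimpleGraph V) (u v : V) (h : u ≠ v) (i j : V) :
    cl (G ⊔ edge u v) i j ↔ cl G i j ∨ (i = u ∧ j = v) ∨ (i = v ∧ j = u) := by
  unfold cl
  rw [sup_adj, edge_adj]
  constructor
  · rintro (rfl | h1 | ⟨(⟨rfl, rfl⟩ | ⟨rfl, rfl⟩), -⟩)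
    · exact Or.inl (Or.inl rfl)
    · exact Or.inl (Or.inr h1)
    · exact Or.inr (Or.inl ⟨rfl, rfl⟩)
    · exact Or.inr (Or.inr ⟨rfl, rfl⟩)
  · rintro ((rfl | h1) | ⟨rfl, rfl⟩ | ⟨rfl, rfl⟩)
    · exact Or.inl rfl
    · exact Or.inr (Or.inl h1)
    · exact Or.inr (Or.inr ⟨Or.inl ⟨rfl, rfl⟩, h⟩)
    · exact Or.inr (Or.inr ⟨Or.inr ⟨rfl, rfl⟩, h.symm⟩)

end Basic

/-! ### The two base graphs -/

/-- closed neighbourhood test of the graph on `Fin n` given by a bit mask -/
def c0 (n m : ℕ) (a b : Fin n) : Bool := a == b || m.testBit (a * n + b) || m.testBit (b * n + a)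

/-- closed neighbourhood test with an extra edge -/
def c1 (n m : ℕ) (u v a b : Fin n) : Bool := c0 n m a b || (a == u && b == v) || (a == v && b == u)

lemma c0_symm (n m : ℕ) (a b : Fin n) : c0 n m a b = c0 n m b a := by
  unfold c0
  rw [show (a == b) = (b == a) from by rw [Bool.eq_iff_iff, beq_iff_eq, beq_iff_eq, eq_comm]]
  rw [Bool.or_assoc, Bool.or_assoc, Bool.or_comm (m.testBit (a * n + b))]

lemma c0_refl (n m : ℕ) (a : Fin n) : c0 n m a a = true := by simp [c0]

/-- first graph, on `11` vertices -/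
def m1 : ℕ := 427276758142955105638702789747959300

/-- second graph, on `10` vertices -/
def m2 : ℕ := 303396273546509609652277691304

/-- all further vertices are mapped to `v₀` -/
def bet (N : ℕ) (v₀ : Fin N) (n : ℕ) (i : Fin n) : Fin N := if h : i.1 < N then ⟨i.1, h⟩ else v₀

lemma bet_surj (N : ℕ) (v₀ : Fin N) (n : ℕ) (h : N ≤ n) : Function.Surjective (bet N v₀ n) := by
  intro x
  exact ⟨⟨x.1, by omega⟩, by simp [bet]⟩

lemma bet_fib {N : ℕ} {v₀ : Fin N} {n : ℕ} {i j : Fin n} (h : bet N v₀ n i = bet N v₀ n j)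
    (h' : bet N v₀ n j ≠ v₀) : i = j := by
  unfold bet at h h'
  split_ifs at h h' with h1 h2
  · exact Fin.ext (Fin.mk.inj h)
  · exact absurd rfl h'
  · exact absurd h.symm h'
  · exact absurd rfl h'

/-- if the fibres of `β` over the images of `u` and `v` are single vertices, then adding the edge
`uv` to the blow-up is the same as blowing up the graph with the edge `β u β v` -/
lemma cl_edge_blow {V : Type} (N m : ℕ) (β : V → Fin N) (u v : V) (huv : u ≠ v)
    (hu : ∀ i, β i = β u → i = u) (hv : ∀ i, β i = β v → i = v) :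
    cl (blow (c0 N m) (c0_symm N m) β ⊔ edge u v) =
      fun i j => c1 N m (β u) (β v) (β i) (β j) = true := by
  ext i j
  rw [cl_edge _ _ _ huv, cl_blow _ _ (c0_refl N m)]
  have e1 : i = u ↔ β i = β u := ⟨fun h => h ▸ rfl, hu i⟩
  have e2 : i = v ↔ β i = β v := ⟨fun h => h ▸ rfl, hv i⟩
  have e3 : j = u ↔ β j = β u := ⟨fun h => h ▸ rfl, hu j⟩
  have e4 : j = v ↔ β j = β v := ⟨fun h => h ▸ rfl, hv j⟩
  rw [e1, e2, e3, e4]
  simp [c1, or_assoc]

/-! ### First family: `γ = 4`, `ir = 3`; the vertex `7` is blown up -/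

lemma a1 : ∀ a b c : Fin 11, ¬ Dom (fun a b => c0 11 m1 a b = true) {a, b, c} := by decide +kernel

lemma a2 : ∀ x y : Fin 11, c0 11 m1 x y = false →
    (y ≠ 7 ∧ ∃ b c : Fin 11, ∀ w, w ≠ y →
      c0 11 m1 x w = true ∨ c0 11 m1 b w = true ∨ c0 11 m1 c w = true) ∨
    (x ≠ 7 ∧ ∃ b c : Fin 11, ∀ w, w ≠ x →
      c0 11 m1 y w = true ∨ c0 11 m1 b w = true ∨ c0 11 m1 c w = true) := by decide +kernel

lemma a3 : ∀ a b : Fin 11, Irr (fun a b => c1 11 m1 0 1 a b = true) {a, b} →
    ∃ c ∉ ({a, b} : Finset (Fin 11)), Irr (fun a b => c1 11 m1 0 1 a b = true) (insert c {a, b}) := by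
  decide +kernel

lemma a4 : Irr (fun a b => c0 11 m1 a b = true) {3, 5, 8} ∧
    ∀ c ∉ ({3, 5, 8} : Finset (Fin 11)),
      ¬ Irr (fun a b => c0 11 m1 a b = true) (insert c {3, 5, 8}) := by decide +kernel

lemma a5 : ∀ x : Fin 11, ∃ z₁ z₂ z₃, c0 11 m1 8 z₁ = true ∧ c0 11 m1 z₁ z₂ = true ∧
    c0 11 m1 z₂ z₃ = true ∧ c0 11 m1 z₃ x = true := by decide +kernel

lemma a6 : c0 11 m1 0 1 = false := by decide +kernel

theorem first (n : ℕ) (hn : 11 ≤ n) :
    ∃ G : SimpleGraph (Fin n), G.Connected ∧ Crit gam G ∧ ¬ Crit ir G := by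
  classical
  have hβ := bet_surj 11 7 n hn
  set β := bet 11 7 n with hβdef
  let G := blow (c0 11 m1) (c0_symm 11 m1) β
  have hcl : cl G = fun i j => c0 11 m1 (β i) (β j) = true := cl_blow _ _ (c0_refl 11 m1) β
  have : Nonempty (Fin n) := ⟨⟨0, by omega⟩⟩
  refine ⟨G, conn _ _ (c0_refl 11 m1) β hβ 8 a5, ?_, ?_⟩
  · have h4 : 4 ≤ gam G := le_gam 3 (by simp; omega) fun S hS hD => by
      rw [hcl, dom_iff (fun a b => c0 11 m1 a b = true) β hβ] at hD
      obtain ⟨a, b, c, -, -, -, rfl⟩ := card_eq_three.mp hS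
      rw [image_insert, image_insert, image_singleton] at hD
      exact a1 _ _ _ hD
    -- the symmetric core
    have core : ∀ u v : Fin n, u ≠ v → β v ≠ 7 → (∃ b c : Fin 11, ∀ w, w ≠ β v →
        c0 11 m1 (β u) w = true ∨ c0 11 m1 b w = true ∨ c0 11 m1 c w = true) →
        gam (G ⊔ edge u v) ≤ 3 := by
      rintro u v huv hv ⟨b, c, hbc⟩
      obtain ⟨b, rfl⟩ := hβ b
      obtain ⟨c, rfl⟩ := hβ c
      refine (gam_le ({u, b, c} : Finset (Fin n)) fun w => ?_).trans card_le_three
      by_cases hw : β w = β v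
      · refine ⟨u, by simp, ?_⟩
        rw [cl_edge _ _ _ huv]
        exact Or.inr (Or.inl ⟨rfl, bet_fib hw hv⟩)
      · rcases hbc (β w) hw with h | h | h
        · exact ⟨u, by simp, (cl_edge _ _ _ huv _ _).2 (Or.inl (by rw [hcl]; exact h))⟩
        · exact ⟨b, by simp, (cl_edge _ _ _ huv _ _).2 (Or.inl (by rw [hcl]; exact h))⟩
        · exact ⟨c, by simp, (cl_edge _ _ _ huv _ _).2 (Or.inl (by rw [hcl]; exact h))⟩
    intro u v huv hadj
    have hc : c0 11 m1 (β u) (β v) = false := by
      by_contra h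
      exact hadj ⟨huv, by simpa using h⟩
    have : gam (G ⊔ edge u v) ≤ 3 := by
      rcases a2 _ _ hc with ⟨h1, h2⟩ | ⟨h1, h2⟩
      · exact core u v huv h1 h2
      · rw [edge_comm]
        exact core v u huv.symm h1 h2
    show gam (G ⊔ edge u v) < gam G
    omega
  · intro h
    let u : Fin n := ⟨0, by omega⟩
    let v : Fin n := ⟨1, by omega⟩
    have hu : β u = 0 := by simp [β, bet, u]
    have hv : β v = 1 := by simp [β, bet, v]
    have huv : u ≠ v := by simp [u, v]
    have h1 := h u v huv (fun hadj => by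
      have := hadj.2
      rw [hu, hv, a6] at this
      simp at this)
    have h2 : ir G ≤ 3 := by
      have := ir_le (fun a b => c0 11 m1 a b = true) β hβ hcl _ a4.1 a4.2
      exact this.trans card_le_three
    have h3 : 3 ≤ ir (G ⊔ edge u v) := by
      have e := cl_edge_blow 11 m1 β u v huv
        (fun i hi => bet_fib hi (by rw [← hβdef, hu]; decide))
        (fun i hi => bet_fib hi (by rw [← hβdef, hv]; decide))
      rw [hu, hv] at e
      exact three_le_ir (fun a b => c1 11 m1 0 1 a b = true) β hβ e a3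
    change ir (G ⊔ edge u v) < ir G at h1
    omega

/-! ### Second family: `γ = ir = 3`; the vertex `6` is blown up -/

lemma b1 : ∀ a b : Fin 10, Irr (fun a b => c0 10 m2 a b = true) {a, b} →
    ∃ c ∉ ({a, b} : Finset (Fin 10)), Irr (fun a b => c0 10 m2 a b = true) (insert c {a, b}) := by
  decide +kernel

lemma b2 : ∀ u v : Fin 10, c0 10 m2 u v = false →
    ∃ a b : Fin 10, Irr (fun a b => c1 10 m2 u v a b = true) {a, b} ∧ ∀ c ∉ ({a, b} : Finset (Fin 10)),
      ¬ Irr (fun a b => c1 10 m2 u v a b = true) (insert c {a, b}) := by decide +kernel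

lemma b3 : ∀ a b : Fin 10, ¬ Dom (fun a b => c1 10 m2 0 4 a b = true) {a, b} := by decide +kernel

lemma b4 : Dom (fun a b => c0 10 m2 a b = true) {0, 1, 2} := by decide +kernel

lemma b5 : ∀ x : Fin 10, ∃ z₁ z₂ z₃, c0 10 m2 9 z₁ = true ∧ c0 10 m2 z₁ z₂ = true ∧
    c0 10 m2 z₂ z₃ = true ∧ c0 10 m2 z₃ x = true := by decide +kernel

lemma b6 : c0 10 m2 0 4 = false := by decide +kernel

/-- the base graph with a twin `10` of the vertex `6` -/
def pr (a : Fin 11) : Fin 10 := if h : a.1 < 10 then ⟨a.1, h⟩ else 6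
/-- the same with an edge from `6` to `y` -/
def d1 (y : Fin 10) (a b : Fin 11) : Bool :=
  c0 10 m2 (pr a) (pr b) || (a == 6 && b == y.castSucc) || (a == y.castSucc && b == 6)

lemma b7 : ∀ y : Fin 10, c0 10 m2 6 y = false →
    ∃ a b : Fin 11, Irr (fun a b => d1 y a b = true) {a, b} ∧ ∀ c ∉ ({a, b} : Finset (Fin 11)),
      ¬ Irr (fun a b => d1 y a b = true) (insert c {a, b}) := by decide +kernel

theorem second (n : ℕ) (hn : 10 ≤ n) :
    ∃ G : SimpleGraph (Fin n), G.Connected ∧ Crit ir G ∧ ¬ Crit gam G := by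
  classical
  have hβ := bet_surj 10 6 n hn
  set β := bet 10 6 n with hβdef
  let G := blow (c0 10 m2) (c0_symm 10 m2) β
  have hcl : cl G = fun i j => c0 10 m2 (β i) (β j) = true := cl_blow _ _ (c0_refl 10 m2) β
  have : Nonempty (Fin n) := ⟨⟨0, by omega⟩⟩
  refine ⟨G, conn _ _ (c0_refl 10 m2) β hβ 9 b5, ?_, ?_⟩
  · have h3 : 3 ≤ ir G := three_le_ir (fun a b => c0 10 m2 a b = true) β hβ hcl b1
    -- one of the ends has a twin
    have core : ∀ u v u' : Fin n, u ≠ v → u' ≠ u → β u' = β u → c0 10 m2 (β u) (β v) = false →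
        ir (G ⊔ edge u v) ≤ 2 := by
      intro u v u' huv hne hu' hc
      have hu6 : β u = 6 := by
        by_contra h
        exact hne (bet_fib hu' h)
      have hv6 : β v ≠ 6 := by
        intro h
        rw [hu6, h, c0_refl] at hc
        exact Bool.noConfusion hc
      let γ : Fin n → Fin 11 := fun w => if w = u then 6 else if β w = 6 then 10 else (β w).castSucc
      have hγ : Function.Surjective γ := by
        intro a
        by_cases h1 : a = 6
        · exact ⟨u, by simp [γ, h1]⟩
        by_cases h2 : a = 10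
        · refine ⟨u', ?_⟩
          simp only [γ, if_neg hne, hu', hu6, if_true, h2]
        · have h3 : a.1 < 10 := by
            have := a.2
            have : a.1 ≠ 10 := fun e => h2 (Fin.ext e)
            omega
          obtain ⟨w, hw⟩ := hβ ⟨a.1, h3⟩
          have h4 : β w ≠ 6 := by
            rw [hw]
            intro e
            apply h1
            apply Fin.ext
            have e' : a.1 = 6 := congrArg Fin.val e
            exact e'
          have h5 : w ≠ u := by
            rintro rfl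
            exact h4 hu6
          refine ⟨w, ?_⟩
          have h6 : γ w = (β w).castSucc := by simp only [γ, if_neg h5, if_neg h4]
          rw [h6, hw]
          rfl
      have hpr : ∀ w, pr (γ w) = β w := by
        intro w
        by_cases h1 : w = u
        · subst h1
          simp only [γ, if_true, hu6]
          rfl
        by_cases h2 : β w = 6
        · simp only [γ, if_neg h1, h2, if_true]
          rfl
        · simp only [γ, if_neg h1, if_neg h2]
          simp [pr]
      have hγu : ∀ w, γ w = 6 ↔ w = u := by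
        intro w
        constructor
        · intro h
          by_contra h1
          by_cases h2 : β w = 6
          · simp only [γ, if_neg h1, h2, if_true] at h
            exact absurd h (by decide)
          · simp only [γ, if_neg h1, if_neg h2] at h
            apply h2
            apply Fin.ext
            have e' : (β w).1 = 6 := congrArg Fin.val h
            exact e'
        · rintro rfl
          simp [γ]
      have hγv : ∀ w, γ w = (β v).castSucc ↔ w = v := by
        intro w
        constructor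
        · intro h
          by_cases h1 : w = u
          · exfalso
            subst h1
            simp only [γ, if_true] at h
            apply hv6
            apply Fin.ext
            have e' : 6 = (β v).1 := congrArg Fin.val h
            exact e'.symm
          by_cases h2 : β w = 6
          · exfalso
            simp only [γ, if_neg h1, h2, if_true] at h
            have := congrArg Fin.val h
            have h6 := (β v).2
            change (10 : ℕ) = (β v).1 at this
            omega
          · simp only [γ, if_neg h1, if_neg h2] at h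
            exact bet_fib (Fin.castSucc_injective _ h) hv6
        · rintro rfl
          simp [γ, huv.symm, hv6]
      have e : cl (G ⊔ edge u v) = fun i j => d1 (β v) (γ i) (γ j) = true := by
        ext i j
        rw [cl_edge _ _ _ huv, hcl, ← hγu i, ← hγu j, ← hγv i, ← hγv j]
        simp [d1, hpr, or_assoc]
      obtain ⟨a, b, h1, h2⟩ := b7 (β v) (hu6 ▸ hc)
      exact (ir_le (fun a b => d1 (β v) a b = true) γ hγ e _ h1 h2).trans card_le_two
    intro u v huv hadj
    have hc : c0 10 m2 (β u) (β v) = false := by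
      by_contra h
      exact hadj ⟨huv, by simpa using h⟩
    have : ir (G ⊔ edge u v) ≤ 2 := by
      by_cases h1 : ∃ u', u' ≠ u ∧ β u' = β u
      · obtain ⟨u', h1, h2⟩ := h1
        exact core u v u' huv h1 h2 hc
      by_cases h2 : ∃ v', v' ≠ v ∧ β v' = β v
      · obtain ⟨v', h1, h2⟩ := h2
        rw [edge_comm]
        exact core v u v' huv.symm h1 h2 (by rw [c0_symm]; exact hc)
      push Not at h1 h2
      have e := cl_edge_blow 10 m2 β u v huv (fun i hi => by_contra fun h => h1 i h hi)
        (fun i hi => by_contra fun h => h2 i h hi)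
      obtain ⟨a, b, k1, k2⟩ := b2 _ _ hc
      exact (ir_le (fun a b => c1 10 m2 (β u) (β v) a b = true) β hβ e _ k1 k2).trans card_le_two
    show ir (G ⊔ edge u v) < ir G
    omega
  · intro h
    let u : Fin n := ⟨0, by omega⟩
    let v : Fin n := ⟨4, by omega⟩
    have hu : β u = 0 := by simp [β, bet, u]
    have hv : β v = 4 := by simp [β, bet, v]
    have huv : u ≠ v := by simp [u, v]
    have h1 := h u v huv (fun hadj => by
      have := hadj.2
      rw [hu, hv, b6] at this
      simp at this)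
    have h2 : gam G ≤ 3 := by
      obtain ⟨ι, hι⟩ := hβ.hasRightInverse
      refine (gam_le (({0, 1, 2} : Finset (Fin 10)).image ι) ?_).trans
        (card_image_le.trans card_le_three)
      rw [hcl, dom_iff (fun a b => c0 10 m2 a b = true) β hβ, image_image]
      have : β ∘ ι = id := funext hι
      rw [this, image_id]
      exact b4
    have h3 : 3 ≤ gam (G ⊔ edge u v) := by
      have e := cl_edge_blow 10 m2 β u v huv
        (fun i hi => bet_fib hi (by rw [← hβdef, hu]; decide))
        (fun i hi => bet_fib hi (by rw [← hβdef, hv]; decide))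
      rw [hu, hv] at e
      refine le_gam 2 (by simp; omega) fun S hS hD => ?_
      rw [e, dom_iff (fun a b => c1 10 m2 0 4 a b = true) β hβ] at hD
      obtain ⟨a, b, -, rfl⟩ := card_eq_two.mp hS
      rw [image_insert, image_singleton] at hD
      exact b3 _ _ hD
    change gam (G ⊔ edge u v) < gam G at h1
    omega

/-- **Both classes differ in every order.** For every `n ≥ 11` there is a connected graph with `n`
vertices that is `γ`-edge-critical but not `ir`-edge-critical, and for every `n ≥ 10` there is a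
connected graph with `n` vertices that is `ir`-edge-critical but not `γ`-edge-critical. -/
theorem result :
    (∀ n : ℕ, 11 ≤ n → ∃ G : SimpleGraph (Fin n), G.Connected ∧ Crit gam G ∧ ¬ Crit ir G) ∧
    ∀ n : ℕ, 10 ≤ n → ∃ G : SimpleGraph (Fin n), G.Connected ∧ Crit ir G ∧ ¬ Crit gam G :=
  ⟨first, second⟩

end Pool.Agent.Results.MP_7f565b_co.EveryOrder
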